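import Pool.Agent.Q66.RX.Stm

/-!
Lemma R1F of project RX: for a group of families in a locally compact abelian group the compact
sets of characters are equicontinuous.
-/

set_option autoImplicit false

namespace Pool.Agent.Q254.RX

open Pool.Agent.Q66.RX
open Topology Filter Set

lemma rr_one : rr 1 = 1 := by simp [rr]

lemma continuous_rr : Continuous rr := Complex.continuous_re.comp continuous_induced_dom

lemma nhd_dual {X : Type} [CommGroup X] [TopologicalSpace X] [IsTopologicalGroup X]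
    {V K : Set X} (hK : IsCompact K) (hVK : V ⊆ K) :
    {β : PontryaginDual X | ∀ v ∈ V, 0 < rr (β v)} ∈ 𝓝 (1 : PontryaginDual X) := by
  have hO : IsOpen {z : Circle | 0 < rr z} := isOpen_lt continuous_const continuous_rr
  have h : IsOpen {f : C(X, Circle) | MapsTo f K {z : Circle | 0 < rr z}} :=
    ContinuousMap.isOpen_setOfPred_mapsTo hK hO
  have hc : Continuous (fun β : PontryaginDual X => ContinuousMonoidHom.toContinuousMap β) :=
    (ContinuousMonoidHom.isInducing_toContinuousMap X Circle).continuous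
  have h2 := h.preimage hc
  have h3 : (1 : PontryaginDual X) ∈ (fun β : PontryaginDual X =>
      ContinuousMonoidHom.toContinuousMap β) ⁻¹'
      {f : C(X, Circle) | MapsTo f K {z : Circle | 0 < rr z}} := by
    intro v _
    change 0 < rr 1
    rw [rr_one]
    exact one_pos
  filter_upwards [h2.mem_nhds h3] with β hβ v hv
  exact hβ (hVK hv)

theorem t_R1F (hE : S_EXTY) (hC : S_CONV) (hH : S_CH) (hS : S_SEQ) (hI : S_CIR) : S_R1F := by
  intro I X G _ _ _ _ _ _ _ F 𝓕 h2 h3 hT hY L hL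
  by_contra hcon
  have hcon' : ∀ W ∈ 𝓝 (1 : G), ∃ χ ∈ L, ∃ g ∈ W, rr (χ g) < 0 := by
    intro W hW
    by_contra hne
    apply hcon
    refine ⟨W, hW, fun χ hχ g hg => ?_⟩
    by_contra hlt
    exact hne ⟨χ, hχ, g, hg, not_le.1 hlt⟩
  obtain ⟨V, K, χ, g, hV, hVV, hK, hVK, hχL, hgV, hneg, hlast⟩ := hH I X G F L h2 hcon'
  obtain ⟨y, hy1, hy2, hy3⟩ := hE I X 𝓕 V K (fun n i => F.c (g n) i) h3 hV hVV hK hVK hgV
    (fun n => hT (g n))
  have hex : ∀ n, ∃ g' : G, F.c g' = y n := fun n =>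
    hY (g n) (y n) {β : PontryaginDual X | ∀ v ∈ V 0, 0 < rr (β v)} (nhd_dual hK hVK)
      (fun β hβ i => hy3 0 β hβ n i) (fun ψ => hy2 n ψ)
  choose h hh using hex
  have hconv := hC I X V K (fun n i => F.c (g n) i) y h2 hV hVV hK hVK hgV hy1
    (fun β hβ n i => hy3 0 β hβ n i)
  have hlim : Tendsto h atTop (𝓝 1) := by
    intro W hW
    obtain ⟨U, hU, hUW⟩ := (F.nhd W).1 hW
    refine mem_map.2 ?_
    filter_upwards [hconv U hU] with n hn
    exact hUW (h n) (fun i => by rw [hh n]; exact hn i)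
  obtain ⟨n, hn⟩ := (hS G L hL h hlim).exists
  have h5 : 0 ≤ rr (χ n (h n)) := hn (χ n) (hχL n)
  have hz : ∀ k : ℕ, 0 ≤ rr (χ n ((h n * (g n)⁻¹) ^ k)) := by
    intro k
    apply hlast n
    intro β hβ i
    have e1 : F.c ((h n * (g n)⁻¹) ^ k) i = (y n i * (F.c (g n) i)⁻¹) ^ k := by
      rw [map_pow, map_mul, map_inv, hh n]
      rfl
    have e2 : β (y n i * (F.c (g n) i)⁻¹) = 1 := by
      rw [map_mul, map_inv, hy3 (n + 1) β hβ n i, mul_inv_cancel]
    rw [e1, map_pow, e2, one_pow, rr_one]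
    exact zero_le_one
  have h6 : χ n (h n * (g n)⁻¹) = 1 := by
    by_contra hne
    obtain ⟨m, hm⟩ := hI {χ n (h n * (g n)⁻¹)}ᶜ (isOpen_compl_singleton.mem_nhds (Ne.symm hne))
    have := hm (χ n (h n * (g n)⁻¹)) (fun k _ => by
      rw [← map_pow]
      exact hz (2 ^ k))
    exact this rfl
  have h7 : χ n (h n) = χ n (g n) := by
    have e : h n = (h n * (g n)⁻¹) * g n := by group
    rw [e, map_mul, h6, one_mul]
  rw [h7] at h5
  exact absurd (hneg n) (not_lt.2 h5)

end Pool.Agent.Q254.RX
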